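import Pool.Agent.U450.SV.PBW
import Pool.Agent.U450.SV.Free
import Pool.Agent.U501.SV.FIN
import Pool.Agent.U796.SV.UNI
import Pool.Agent.U256.SV.KOS

set_option autoImplicit false

/-!
# Every closed conical subset of the odd nullcone is a support variety (characteristic `p ≥ 3`)

Let `g = g_0 ⊕ g_1` be a finite-dimensional Lie superalgebra over an algebraically closed field `k`
of characteristic `p ≥ 3` (in characteristic three `[y,[y,y]] = 0` is part of the definition), and
let `W` be a closed conical subset of the odd nullcone `N_1 = {x ∈ g_1 : [x,x] = 0}`. Then there is a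
finite-dimensional `g`-supermodule `M` whose rank variety
`{x ∈ N_1 : M is not free over Λ(x)} ∪ {0}` is `W`.

Proof. The even part `g_0` acts on `S(g_1^*)` by derivations, so `F = f^p` is `g_0`-invariant for
every homogeneous `f`; hence `F` is a class in the relative cohomology
`H^n(g, g_0; k) = S^n(g_1^*)^{g_0}`, `n = p deg f`. In the relative Koszul resolution
`P_n = U(g) ⊗_{U(g_0)} D^n(g_1)` of `k` all modules are finite-dimensional (relative
Poincaré-Birkhoff-Witt theorem, proved here) and free over `Λ(x)` for all `0 ≠ x ∈ N_1`. The relative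
Carlson module `L_F = ∂ (ker (F : P_n → k)) ⊆ P_{n-1}` is free over `Λ(x)` if and only if
`f(x) ≠ 0`. Tensor products of such modules give all closed conical sets.

Authors: helper450 (plan, Poincaré-Birkhoff-Witt theorem, assembly), helper256 (Koszul resolution and
Carlson modules), helper501 (tensor products and closed conical sets), helper796 (acyclicity and
universal property of induced modules).
-/

universe u

namespace Pool.Agent.Results.MP_c38bc8_al.AllConicalSetsRealized

open Pool.Agent.U450.SV

theorem result (k g0 g1 : Type u) [Field k] [IsAlgClosed k] [AddCommGroup g0] [Module k g0]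
    [Module.Finite k g0] [AddCommGroup g1] [Module k g1] [Module.Finite k g1]
    (p : ℕ) [Fact p.Prime] [CharP k p] (hp : 3 ≤ p)
    (L : LieSuper k g0 g1) (W : Set g1) (hW : IsClosedConical L W) :
    ∃ (M : Type u) (_ : AddCommGroup M) (_ : Module k M) (_ : Module.Finite k M) (ρ : SMod L M),
      {x : g1 | L.b11 x x = 0 ∧ (x = 0 ∨ ¬ IsFreeOver (ρ.r1 x))} = W := by
  obtain ⟨M, i1, i2, i3, ρ, hρ⟩ := Pool.Agent.U501.SV.FIN.t_FIN
    (Pool.Agent.U256.SV.KOS.t_KOS t_PBW Pool.Agent.U796.SV.UNI.t_ACY Pool.Agent.U796.SV.UNI.t_UNI)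
    k g0 g1 p hp L W hW
  refine ⟨M, i1, i2, i3, ρ, ?_⟩
  rw [← hρ]
  have h2 : (2 : k) ≠ 0 := by
    intro h
    have h' : ((2 : ℕ) : k) = 0 := by exact_mod_cast h
    rw [CharP.cast_eq_zero_iff k p] at h'
    have := Nat.le_of_dvd (by norm_num) h'
    omega
  ext x
  simp only [Set.mem_ofPred_eq, rankVar]
  refine and_congr_right fun hx => or_congr_right ?_
  have hsq : ρ.r1 x * ρ.r1 x = 0 := by
    have h := ρ.h11 x x
    rw [hx, map_zero] at h
    have h' : (2 : k) • (ρ.r1 x * ρ.r1 x) = 0 := by rw [two_smul]; exact h.symm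
    exact (smul_eq_zero.1 h').resolve_left h2
  rw [isFreeOver_iff _ hsq]

end Pool.Agent.Results.MP_c38bc8_al.AllConicalSetsRealized
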